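import Pool.Agent.H.MP_516cd6_nt.Main

/-!
# Subset sums of weakly zero-sum-free sets: `f(m) / m² → 1/2`

We determine the asymptotic behaviour of the function `f` of Olson's problem.  The proof combines
Olson's growth lemma with Hamidoune's atoms; see the helper files `Pool.Agent.H.MP_516cd6_nt.*`.
-/

set_option autoImplicit false

open Finset Filter
open scoped Topology

namespace Pool.Agent.Results.MP_516cd6_nt.HalfLimit

/-- `Σ*(A)`: the set of sums of nonempty subsets of `A`. -/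
def SigmaStar {G : Type*} [AddCommGroup G] (A : Finset G) : Set G :=
  {x | ∃ B ⊆ A, B.Nonempty ∧ ∑ b ∈ B, b = x}

/-- `A` is weakly zero-sum-free: no nonempty subset of `A` sums to `0`. -/
def WeaklyZeroSumFree {G : Type*} [AddCommGroup G] (A : Finset G) : Prop :=
  (0 : G) ∉ SigmaStar A

/-- `f(m)`: the minimum of `|Σ*(A)|` over the weakly zero-sum-free sets `A` with `|A| = m` in
finite abelian groups. -/
noncomputable def f (m : ℕ) : ℕ :=
  sInf {k | ∃ (G : Type) (_ : AddCommGroup G) (_ : Finite G) (A : Finset G),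
    A.card = m ∧ WeaklyZeroSumFree A ∧ (SigmaStar A).ncard = k}

open Pool.Agent.H.MP_516cd6_nt

theorem wzsf {G : Type*} [AddCommGroup G] {A : Finset G} (h : WeaklyZeroSumFree A) : WZSF A :=
  fun B hB hne h0 => h ⟨B, hB, hne, h0⟩

theorem ncard_sigmaStar {G : Type*} [AddCommGroup G] [DecidableEq G] {A : Finset G}
    (h : WeaklyZeroSumFree A) : (SigmaStar A).ncard + 1 = A.subsetSum.card := by
  have h1 : SigmaStar A = ((A.subsetSum.erase 0 : Finset G) : Set G) := by
    ext x
    rw [mem_coe, mem_erase, mem_SS]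
    constructor
    · rintro ⟨B, hB, hne, rfl⟩
      exact ⟨wzsf h B hB hne, B, hB, rfl⟩
    · rintro ⟨hx, B, hB, rfl⟩
      refine ⟨B, hB, ?_, rfl⟩
      rw [Finset.nonempty_iff_ne_empty]
      rintro rfl
      exact hx (by simp)
  rw [h1, Set.ncard_coe_finset]
  exact card_erase_add_one Finset.zero_mem_subsetSum

/-- The set `{1, …, m}` in `ℤ/n`, where `n = m (m + 1) / 2 + 1`. -/
theorem example_exists (m : ℕ) : ∃ (G : Type) (_ : AddCommGroup G) (_ : Finite G) (A : Finset G),
    A.card = m ∧ WeaklyZeroSumFree A ∧ 2 * (SigmaStar A).ncard ≤ m * (m + 1) := by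
  set N : ℕ := ∑ i ∈ Icc 1 m, i with hN
  have hN2 : 2 * N = m * (m + 1) := by
    have h1 : N = ∑ i ∈ range (m + 1), i := by
      rw [hN, Finset.range_eq_Ico, Finset.sum_eq_sum_Ico_succ_bot (by omega)]
      simp only [zero_add]
      rfl
    have h2 := Finset.sum_range_id_mul_two (m + 1)
    rw [h1]
    simp only [add_tsub_cancel_right] at h2
    linarith
  have hinj : Set.InjOn (fun i : ℕ => (i : ZMod (N + 1))) (Icc 1 m : Finset ℕ) := by
    intro i hi j hj hij
    have hi' := Finset.mem_Icc.1 (by exact_mod_cast hi)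
    have hj' := Finset.mem_Icc.1 (by exact_mod_cast hj)
    have hle : ∀ k ∈ Icc 1 m, k ≤ N := fun k hk =>
      Finset.single_le_sum (f := fun i => i) (fun _ _ => Nat.zero_le _) hk
    have h1 := hle i (Finset.mem_Icc.2 hi')
    have h2 := hle j (Finset.mem_Icc.2 hj')
    simp only at hij
    rw [ZMod.natCast_eq_natCast_iff'] at hij
    rwa [Nat.mod_eq_of_lt (by omega), Nat.mod_eq_of_lt (by omega)] at hij
  set A : Finset (ZMod (N + 1)) := (Icc 1 m).image (fun i : ℕ => (i : ZMod (N + 1))) with hA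
  have key : ∀ B ⊆ A, B.Nonempty → ∃ s : ℕ, 1 ≤ s ∧ s ≤ N ∧ ∑ b ∈ B, b = (s : ZMod (N + 1)) := by
    intro B hB hne
    obtain ⟨C, hC, hCB⟩ := Finset.subset_image_iff.1 hB
    have hC' : C ⊆ Icc 1 m := by
      intro x hx
      have := hC (by exact_mod_cast hx)
      exact_mod_cast this
    have hCne : C.Nonempty := by
      rw [← hCB] at hne
      exact (Finset.image_nonempty).1 hne
    refine ⟨∑ i ∈ C, i, ?_, ?_, ?_⟩
    · obtain ⟨c, hc⟩ := hCne
      have h1 := (Finset.mem_Icc.1 (hC' hc)).1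
      exact h1.trans (Finset.single_le_sum (f := fun i => i) (fun _ _ => Nat.zero_le _) hc)
    · exact Finset.sum_le_sum_of_subset hC'
    · rw [← hCB, Finset.sum_image (hinj.mono (by exact_mod_cast hC'))]
      push_cast
      rfl
  refine ⟨ZMod (N + 1), inferInstance, inferInstance, A, ?_, ?_, ?_⟩
  · rw [hA, Finset.card_image_of_injOn hinj]
    simp
  · rintro ⟨B, hB, hne, h0⟩
    obtain ⟨s, hs1, hs2, hs⟩ := key B hB hne
    rw [h0] at hs
    have := (ZMod.natCast_eq_zero_iff s (N + 1)).1 hs.symm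
    have := Nat.le_of_dvd (by omega) this
    omega
  · have hsub : SigmaStar A ⊆
        (((Icc 1 N).image (fun i : ℕ => (i : ZMod (N + 1))) : Finset (ZMod (N + 1))) :
          Set (ZMod (N + 1))) := by
      rintro x ⟨B, hB, hne, rfl⟩
      obtain ⟨s, hs1, hs2, hs⟩ := key B hB hne
      rw [mem_coe, mem_image]
      exact ⟨s, Finset.mem_Icc.2 ⟨hs1, hs2⟩, hs.symm⟩
    have h1 := Set.ncard_le_ncard hsub (Set.toFinite _)
    rw [Set.ncard_coe_finset] at h1
    have h2 : ((Icc 1 N).image (fun i : ℕ => (i : ZMod (N + 1)))).card ≤ N := by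
      refine card_image_le.trans ?_
      simp
    omega

theorem set_nonempty (m : ℕ) :
    {k | ∃ (G : Type) (_ : AddCommGroup G) (_ : Finite G) (A : Finset G),
      A.card = m ∧ WeaklyZeroSumFree A ∧ (SigmaStar A).ncard = k}.Nonempty := by
  obtain ⟨G, h1, h2, A, h3, h4, _⟩ := example_exists m
  exact ⟨_, G, h1, h2, A, h3, h4, rfl⟩

theorem f_le {G : Type} [AddCommGroup G] [Finite G] {A : Finset G} (h : WeaklyZeroSumFree A) :
    f A.card ≤ (SigmaStar A).ncard :=
  Nat.sInf_le ⟨G, inferInstance, inferInstance, A, rfl, h, rfl⟩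

theorem f_attained (m : ℕ) : ∃ (G : Type) (_ : AddCommGroup G) (_ : Finite G) (A : Finset G),
    A.card = m ∧ WeaklyZeroSumFree A ∧ (SigmaStar A).ncard = f m :=
  Nat.sInf_mem (set_nonempty m)

theorem f_upper (m : ℕ) : 2 * f m ≤ m * (m + 1) := by
  obtain ⟨G, h1, h2, A, h3, h4, h5⟩ := example_exists m
  have := f_le h4
  rw [h3] at this
  omega

/-- The lower bound for `f`. -/
theorem f_lower {c : ℝ} (hc : c < 1 / 2) : ∃ M : ℕ, ∀ m ≥ M, c * (m : ℝ) ^ 2 ≤ f m := by
  classical
  obtain ⟨c', hc1, hc2⟩ := exists_between hc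
  obtain ⟨M, hM⟩ := bound_of_lt.{0} hc2
  obtain ⟨M2, hM2⟩ := eventually_atTop.1
    ((tendsto_natCast_atTop_atTop (R := ℝ)).eventually_ge_atTop (1 / (c' - c) + 1))
  refine ⟨max M M2, fun m hm => ?_⟩
  obtain ⟨G, h1, h2, A, h3, h4, h5⟩ := f_attained m
  have h6 := hM G A (wzsf h4) (by rw [h3]; exact (le_max_left _ _).trans hm)
  have h7 := ncard_sigmaStar h4
  have h8 := hM2 m ((le_max_right _ _).trans hm)
  rw [h3, ← h7, h5] at h6
  push_cast at h6
  have hd : 0 < c' - c := by linarith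
  have h9 : 1 ≤ (c' - c) * (m : ℝ) := by
    have e : (c' - c) * (1 / (c' - c)) = 1 := by field_simp
    have := mul_le_mul_of_nonneg_left h8 hd.le
    nlinarith
  have h10 : (1 : ℝ) ≤ m := by
    have : 0 ≤ 1 / (c' - c) := by positivity
    linarith
  have h11 : 1 ≤ (c' - c) * (m : ℝ) ^ 2 := by
    have : (c' - c) * (m : ℝ) ^ 2 = ((c' - c) * m) * m := by ring
    rw [this]
    nlinarith
  linarith

/-- **Main result.**  The minimum defining `f(m)` is attained, `f(m) / m² → 1 / 2`, and for every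
real `c < 1/2` (for instance `c = 49/100`) one has `f(m) ≥ ⌈c m²⌉` for all but finitely many `m`;
no `c > 1/2` has this property. -/
theorem result :
    (∀ m : ℕ, IsLeast {k | ∃ (G : Type) (_ : AddCommGroup G) (_ : Finite G) (A : Finset G),
      A.card = m ∧ WeaklyZeroSumFree A ∧ (SigmaStar A).ncard = k} (f m)) ∧
    Tendsto (fun m : ℕ => (f m : ℝ) / (m : ℝ) ^ 2) atTop (𝓝 (1 / 2)) ∧
    (∀ c : ℝ, c < 1 / 2 → ∃ M : ℕ, ∀ m ≥ M, ⌈c * (m : ℝ) ^ 2⌉ ≤ (f m : ℤ)) ∧
    (∀ c : ℝ, 1 / 2 < c → ∃ M : ℕ, ∀ m ≥ M, (f m : ℝ) < c * (m : ℝ) ^ 2) := by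
  have hup : ∀ c : ℝ, 1 / 2 < c → ∃ M : ℕ, ∀ m ≥ M, (f m : ℝ) < c * (m : ℝ) ^ 2 := by
    intro c hc
    obtain ⟨M, hM⟩ := eventually_atTop.1
      ((tendsto_natCast_atTop_atTop (R := ℝ)).eventually_gt_atTop (1 / (2 * (c - 1 / 2))))
    refine ⟨M, fun m hm => ?_⟩
    have h1 := hM m hm
    have h2 : 2 * (f m : ℝ) ≤ m * (m + 1) := by exact_mod_cast f_upper m
    have hd : 0 < 2 * (c - 1 / 2) := by linarith
    rw [div_lt_iff₀ hd] at h1
    have h3 : (0 : ℝ) < m := by
      by_contra h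
      have h' : (m : ℝ) = 0 := le_antisymm (not_lt.1 h) (by positivity)
      rw [h'] at h1
      linarith
    nlinarith
  refine ⟨fun m => ⟨f_attained m, fun k hk => Nat.sInf_le hk⟩, ?_, ?_, hup⟩
  · rw [tendsto_order]
    constructor
    · intro c hc
      obtain ⟨c', hc1, hc2⟩ := exists_between hc
      obtain ⟨M, hM⟩ := f_lower hc2
      filter_upwards [eventually_ge_atTop M, eventually_gt_atTop 0] with m hm hm0
      have hm0' : (0 : ℝ) < m := by exact_mod_cast hm0
      rw [lt_div_iff₀ (by positivity)]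
      refine lt_of_lt_of_le ?_ (hM m hm)
      exact mul_lt_mul_of_pos_right hc1 (by positivity)
    · intro c hc
      obtain ⟨M, hM⟩ := hup c hc
      filter_upwards [eventually_ge_atTop M, eventually_gt_atTop 0] with m hm hm0
      have hm0' : (0 : ℝ) < m := by exact_mod_cast hm0
      rw [div_lt_iff₀ (by positivity)]
      exact hM m hm
  · intro c hc
    obtain ⟨M, hM⟩ := f_lower hc
    refine ⟨M, fun m hm => ?_⟩
    rw [Int.ceil_le]
    have := hM m hm
    exact_mod_cast this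

end Pool.Agent.Results.MP_516cd6_nt.HalfLimit
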